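import Pool.Agent.R877.RN.Stm

/-! Project RN, piece TR0: for a derivation `D` of a nilpotent bracket, `tr (D ad x) = 0`. -/

namespace R877.RN
open Matrix

namespace TR0

variable {n : ℕ}

theorem der_adm {μ : Br n} {D : Mat n} (hD : IsDer D μ) (x : Fin n → ℝ) :
    D * adm μ x = adm μ (D *ᵥ x) + adm μ x * D := by
  ext k i
  simp only [Matrix.mul_apply, adm, Matrix.add_apply, Matrix.mulVec, dotProduct]
  calc ∑ r, D k r * ∑ p, x p * μ p i r
      = ∑ p, x p * ∑ r, D k r * μ p i r := by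
        simp only [Finset.mul_sum]
        rw [Finset.sum_comm]
        exact Finset.sum_congr rfl fun p _ => Finset.sum_congr rfl fun r _ => by ring
    _ = ∑ p, x p * (∑ s, D s p * μ s i k + ∑ q, D q i * μ p q k) :=
        Finset.sum_congr rfl fun p _ => by rw [hD p i k]
    _ = ∑ s, (∑ p, D s p * x p) * μ s i k + ∑ q, (∑ p, x p * μ p q k) * D q i := by
        simp only [mul_add, Finset.mul_sum, Finset.sum_add_distrib, Finset.sum_mul]
        congr 1
        · rw [Finset.sum_comm]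
          exact Finset.sum_congr rfl fun p _ => Finset.sum_congr rfl fun r _ => by ring
        · rw [Finset.sum_comm]
          exact Finset.sum_congr rfl fun p _ => Finset.sum_congr rfl fun r _ => by ring

theorem adm_frame {μ : Br n} {l : Mat n} (hl : IsO l) (x : Fin n → ℝ) (k j : Fin n) :
    (l * adm μ x * lᵀ) k j = ∑ i, (l *ᵥ x) i * act l μ i j k := by
  have hinv : l⁻¹ = lᵀ := Matrix.inv_eq_right_inv hl
  have hl' : lᵀ * l = 1 := mul_eq_one_comm.mp hl
  have hx : ∀ p, ∑ i, lᵀ p i * (l *ᵥ x) i = x p := by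
    intro p
    have : (lᵀ *ᵥ (l *ᵥ x)) p = x p := by
      rw [Matrix.mulVec_mulVec, hl', Matrix.one_mulVec]
    exact this
  calc (l * adm μ x * lᵀ) k j
      = ∑ q, ∑ r, ∑ p, l k r * (x p * μ p q r) * lᵀ q j := by
        simp only [Matrix.mul_apply, adm, Finset.sum_mul, Finset.mul_sum]
    _ = ∑ q, ∑ r, ∑ p, ∑ i, l k r * ((lᵀ p i * (l *ᵥ x) i) * μ p q r) * lᵀ q j := by
        refine Finset.sum_congr rfl fun q _ => Finset.sum_congr rfl fun r _ =>
          Finset.sum_congr rfl fun p _ => ?_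
        rw [← hx p]
        simp only [Finset.sum_mul, Finset.mul_sum]
    _ = ∑ i, ∑ p, ∑ q, ∑ r, (l *ᵥ x) i * (l k r * μ p q r * lᵀ p i * lᵀ q j) := by
        have h1 : ∀ q : Fin n, ∑ r, ∑ p, ∑ i, l k r * ((lᵀ p i * (l *ᵥ x) i) * μ p q r) * lᵀ q j
            = ∑ i, ∑ p, ∑ r, (l *ᵥ x) i * (l k r * μ p q r * lᵀ p i * lᵀ q j) := by
          intro q
          rw [Finset.sum_comm]
          have : ∀ p : Fin n, ∑ r, ∑ i, l k r * ((lᵀ p i * (l *ᵥ x) i) * μ p q r) * lᵀ q j
            = ∑ i, ∑ r, (l *ᵥ x) i * (l k r * μ p q r * lᵀ p i * lᵀ q j) := by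
            intro p
            rw [Finset.sum_comm]
            exact Finset.sum_congr rfl fun i _ => Finset.sum_congr rfl fun r _ => by ring
          rw [Finset.sum_congr rfl fun p _ => this p, Finset.sum_comm]
        rw [Finset.sum_congr rfl fun q _ => h1 q, Finset.sum_comm]
        refine Finset.sum_congr rfl fun i _ => ?_
        rw [Finset.sum_comm]
    _ = ∑ i, (l *ᵥ x) i * act l μ i j k := by
        simp only [act, hinv, Finset.mul_sum]

/-- lower central series -/
noncomputable def C (μ : Br n) : ℕ → Submodule ℝ (Fin n → ℝ)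
  | 0 => ⊤
  | m + 1 => Submodule.span ℝ {z | ∃ x, ∃ y ∈ C μ m, z = adm μ x *ᵥ y}

theorem adm_mem {μ : Br n} {m : ℕ} {y : Fin n → ℝ} (hy : y ∈ C μ m) (x : Fin n → ℝ) :
    adm μ x *ᵥ y ∈ C μ (m + 1) :=
  Submodule.subset_span ⟨x, y, hy, rfl⟩

theorem der_mem {μ : Br n} {D : Mat n} (hD : IsDer D μ) (m : ℕ) :
    ∀ y ∈ C μ m, D *ᵥ y ∈ C μ m := by
  induction m with
  | zero => intro y _; exact Submodule.mem_top
  | succ m ih =>
    have hle : C μ (m + 1) ≤ (C μ (m + 1)).comap (Matrix.mulVecLin D) := by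
      conv_lhs => rw [C]
      rw [Submodule.span_le]
      rintro z ⟨x, y, hy, rfl⟩
      show D *ᵥ (adm μ x *ᵥ y) ∈ C μ (m + 1)
      rw [Matrix.mulVec_mulVec, der_adm hD x, Matrix.add_mulVec, ← Matrix.mulVec_mulVec]
      exact Submodule.add_mem _ (adm_mem hy _) (adm_mem (ih y hy) _)
    intro y hy
    exact hle hy

theorem C_flag {μ : Br n} {l : Mat n} (hl : IsO l)
    (htri : ∀ i j k, act l μ i j k ≠ 0 → i < k ∧ j < k) (m : ℕ) :
    ∀ y ∈ C μ m, ∀ k : Fin n, (k : ℕ) < m → (l *ᵥ y) k = 0 := by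
  have hl' : lᵀ * l = 1 := mul_eq_one_comm.mp hl
  induction m with
  | zero => intro y _ k hk; omega
  | succ m ih =>
    intro y hy k hk
    have hle : C μ (m + 1) ≤ LinearMap.ker ((LinearMap.proj k).comp (Matrix.mulVecLin l)) := by
      rw [C, Submodule.span_le]
      rintro z ⟨x, y, hy, rfl⟩
      show (l *ᵥ (adm μ x *ᵥ y)) k = 0
      have h1 : l *ᵥ (adm μ x *ᵥ y) = (l * adm μ x * lᵀ) *ᵥ (l *ᵥ y) := by
        rw [Matrix.mulVec_mulVec, Matrix.mulVec_mulVec, Matrix.mul_assoc (l * adm μ x), hl',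
          Matrix.mul_one]
      rw [h1, Matrix.mulVec, dotProduct]
      refine Finset.sum_eq_zero fun j _ => ?_
      rw [adm_frame hl]
      by_cases hjk : j < k
      · rw [ih y hy j (by have : (j : ℕ) < k := hjk; omega), mul_zero]
      · have : ∑ i, (l *ᵥ x) i * act l μ i j k = 0 := by
          refine Finset.sum_eq_zero fun i _ => ?_
          have : act l μ i j k = 0 := by
            by_contra h
            exact hjk (htri i j k h).2
          rw [this, mul_zero]
        rw [this, zero_mul]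
    exact hle hy

theorem pow_mem {μ : Br n} {D : Mat n} (hD : IsDer D μ) (x : Fin n → ℝ) (m : ℕ) :
    ∀ y, ((D * adm μ x) ^ m) *ᵥ y ∈ C μ m := by
  induction m with
  | zero => intro y; exact Submodule.mem_top
  | succ m ih =>
    intro y
    rw [pow_succ', ← Matrix.mulVec_mulVec, ← Matrix.mulVec_mulVec]
    exact der_mem hD _ _ (adm_mem (ih y) x)

end TR0

open TR0 in
theorem p_TR0 : P_TR0 := by
  intro n μ D _ _ hT hD x
  obtain ⟨l, hl, htri, -⟩ := hT
  have hl' : lᵀ * l = 1 := mul_eq_one_comm.mp hl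
  have hz : (D * adm μ x) ^ n = 0 := by
    have : ∀ y, ((D * adm μ x) ^ n) *ᵥ y = 0 := by
      intro y
      have h1 : l *ᵥ (((D * adm μ x) ^ n) *ᵥ y) = 0 := by
        ext k
        exact C_flag hl htri n _ (pow_mem hD x n y) k k.2
      calc ((D * adm μ x) ^ n) *ᵥ y = lᵀ *ᵥ (l *ᵥ (((D * adm μ x) ^ n) *ᵥ y)) := by
            rw [Matrix.mulVec_mulVec, hl', Matrix.one_mulVec]
        _ = 0 := by rw [h1, Matrix.mulVec_zero]
    ext i j
    have h2 := congrFun (this (Pi.single j 1)) i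
    simpa using h2
  have hnil : IsNilpotent (D * adm μ x) := ⟨n, hz⟩
  exact (Matrix.isNilpotent_trace_of_isNilpotent hnil).eq_zero

end R877.RN
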